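import Pool.Agent.Lib.MP_2c79a0_ag.MainE
import Pool.Agent.Lib.MP_2c79a0_ag.Dim
import Pool.Agent.Lib.MP_2c79a0_ag.CycA
import Pool.Agent.Lib.MP_2c79a0_ag.Res
import Pool.Agent.Lib.MP_2c79a0_ag.Pb
import Pool.Agent.Lib.MP_2c79a0_ag.Norm
import Pool.Agent.Lib.MP_2c79a0_ag.KeyNormal
import Pool.Agent.Lib.MP_2c79a0_ag.Key
import Pool.Agent.Lib.MP_2c79a0_ag.Serre
import Pool.Agent.Lib.MP_2c79a0_ag.Prod
import Pool.Agent.Lib.MP_2c79a0_ag.FanA
import Pool.Agent.Lib.MP_2c79a0_ag.FanInj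
import Pool.Agent.Lib.MP_2c79a0_ag.FanPD
import Pool.Agent.Lib.MP_2c79a0_ag.Blow
import Pool.Agent.Lib.MP_2c79a0_ag.ChartB
import Pool.Agent.Lib.MP_2c79a0_ag.TowerBase
import Pool.Agent.Lib.MP_2c79a0_ag.TowerStep
import Pool.Agent.Lib.MP_2c79a0_ag.ChartX2
import Pool.Agent.Lib.MP_2c79a0_ag.ChartX
import Pool.Agent.Lib.MP_2c79a0_ag.Cover
import Pool.Agent.Lib.MP_2c79a0_ag.Div
import Pool.Agent.Lib.MP_2c79a0_ag.Bridge

/-!
Products of cycles of positive codimension on the Calabi-Yau double cover of an arrangement of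
`2 n + 2` general hyperplanes: a numerically trivial sum of products is rationally trivial.
-/

open AlgebraicGeometry CategoryTheory Pool.Agent.Lib.MP_2c79a0_ag

namespace Pool.Agent.Results.MP_2c79a0_ag.ProductsInject

theorem result (n : ℕ) (hn : 2 ≤ n) (ℓ : Fin (2 * n + 2) → Fin (n + 1) → ℂ) (hℓ : St.GenPos ℓ)
    (B X : Scheme.{0}) (p : B ⟶ St.Pn n) (Z : Finset (Fin (2 * n + 2)) → Set B)
    (hB : St.Tower ℓ B p Z (Finset.powersetCard 2 Finset.univ)) (π : X ⟶ B) (hπ : St.DoubleCover ℓ π p)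
    (i j : ℕ) (hi : 0 < i) (hj : 0 < j) (r : ℕ) (a b : Fin r → X → ℚ)
    (ha : ∀ s, St.IsCycle X i (a s)) (hb : ∀ s, St.IsCycle X j (b s)) (hab : ∀ s, St.Proper (a s) (b s))
    (hnum : St.NumTriv X n (i + j) (∑ s, St.inter (a s) (b s))) :
    ∑ s, St.inter (a s) (b s) ∈ St.Rat X (i + j) := by
  have hD := dimStmt
  have hC : CycStmt := ⟨cycBasic hD, dvStmt hD, mcyc hD, resStmt hD (cycBasic hD) (dvStmt hD),
    pbStmt hD (cycBasic hD) (dvStmt hD) (mcyc hD)⟩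
  have hA := affStmt hD hC
  have hS := serreStmt hD hC
  have hK := keyStmt hD hC (normStmt hD hC) (keyNormal hD hC)
  exact Main.final hD hC (prodStmt hD hC hK hA hS) hS fanBasic (fanMain fanInj (fanPD fanBasic))
    (towerBase chartB) (towerStep fanBasic blowStmt chartB)
    (coverStmt fanBasic chartB (chartX chartB (chartX2 hD hC hA chartB)) (torusX hD chartB))
    pointStmt (divStmt hD hC) hn hℓ (Bridge.tower hB) (Bridge.doubleCover hπ) hi hj a b ha hb hab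
    (Bridge.numTriv hnum)

end Pool.Agent.Results.MP_2c79a0_ag.ProductsInject
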